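import Mathlib
import Pool.Agent.Helper42.Th.Defs

/-!
Integer potentials on the vertices and faces of a graph give a tiling of a rectangle by squares.
-/

set_option autoImplicit false

namespace Pool.Agent.Helper74.TW

open Pool.Agent.Helper42.Th

variable {E : Type}

/-- Integer potentials `Y` on the vertices and `A` on the faces; `Y` grows from `0` to `h` between
the ends of `δ`, `A` grows from `0` to `k` between the two sides of `δ`; along every other edge
across which `A` grows, `Y` grows. -/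
structure Pot (Γ : CMap E) (δ : E) (h k : ℤ) where
  Y : E → ℤ
  A : E → ℤ
  Y_rot : ∀ d, Y (Γ.rot d) = Y d
  A_rot : ∀ d, A (Γ.flip (Γ.rot d)) = A d
  Y_u : Y δ = 0
  Y_v : Y (Γ.flip δ) = h
  A_R : A δ = k
  A_L : A (Γ.flip δ) = 0
  edge : ∀ d, d ≠ δ → d ≠ Γ.flip δ → A d < A (Γ.flip d) → Y d < Y (Γ.flip d)

/-- Stokes: a function on the vertices and a function on the faces are orthogonal. -/
lemma stokes [Fintype E] (Γ : CMap E) (f g : E → ℤ) (hf : ∀ d, f (Γ.rot d) = f d)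
    (hg : ∀ d, g (Γ.flip (Γ.rot d)) = g d) :
    ∑ d, (f (Γ.flip d) - f d) * (g (Γ.flip d) - g d) = 0 := by
  have h1 : ∑ d, f (Γ.flip d) * g (Γ.flip d) = ∑ d, f d * g d :=
    Equiv.sum_comp Γ.flip fun d => f d * g d
  have h2 : ∑ d, f (Γ.flip d) * g d = ∑ d, f d * g (Γ.flip d) := by
    rw [← Equiv.sum_comp Γ.flip fun d => f d * g (Γ.flip d)]
    exact Finset.sum_congr rfl fun d _ => by rw [Γ.flip_flip]
  have h3 : ∑ d, f d * g (Γ.flip d) = ∑ d, f d * g d := by
    rw [← Equiv.sum_comp Γ.rot fun d => f d * g (Γ.flip d)]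
    exact Finset.sum_congr rfl fun d _ => by rw [hf, hg]
  have h4 : ∀ d, (f (Γ.flip d) - f d) * (g (Γ.flip d) - g d) =
      f (Γ.flip d) * g (Γ.flip d) + f d * g d - f (Γ.flip d) * g d - f d * g (Γ.flip d) :=
    fun d => by ring
  simp only [h4, Finset.sum_sub_distrib, Finset.sum_add_distrib, h1, h2, h3]
  ring

/-- The sum of the jumps of a function on the faces around a vertex vanishes. -/
lemma vertex_sum [Fintype E] (Γ : CMap E) (g : E → ℤ) (hg : ∀ d, g (Γ.flip (Γ.rot d)) = g d)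
    (w : E) (s : Finset E) (hs : ∀ d, d ∈ s ↔ Γ.rot.SameCycle w d) :
    ∑ d ∈ s, (g (Γ.flip d) - g d) = 0 := by
  rw [Finset.sum_sub_distrib, sub_eq_zero]
  have h1 : ∑ d ∈ s, g d = ∑ d ∈ s, g (Γ.flip (Γ.rot d)) :=
    Finset.sum_congr rfl fun d _ => (hg d).symm
  rw [h1]
  symm
  refine Finset.sum_bij (fun d _ => Γ.rot d) ?_ ?_ ?_ ?_
  · intro d hd
    rw [hs] at hd ⊢
    exact Equiv.Perm.sameCycle_apply_right.mpr hd
  · intro d _ e _ h
    exact Γ.rot.injective h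
  · intro d hd
    refine ⟨Γ.rot.symm d, ?_, Γ.rot.apply_symm_apply d⟩
    rw [hs] at hd ⊢
    exact Equiv.Perm.sameCycle_symm_apply_right.mpr hd
  · intro d _
    rfl

namespace Pot

variable {Γ : CMap E} {δ : E} {h k : ℤ} (P : Pot Γ δ h k)

/-- The dart `d` is the forward dart of a tile which covers the unit cell `(i, j)`. -/
structure Cov (d : E) (i j : ℤ) : Prop where
  ne : d ≠ δ
  ne' : d ≠ Γ.flip δ
  a1 : P.A d ≤ i
  a2 : i < P.A (Γ.flip d)
  y1 : P.Y d ≤ j
  y2 : j < P.Y (Γ.flip d)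

/-- The indicator function of a half line. -/
def ind (n m : ℤ) : ℤ := if n < m then 1 else 0

lemma ind_sub {n m m' : ℤ} (h : m ≤ m') :
    ind n m' - ind n m = if m ≤ n ∧ n < m' then 1 else 0 := by
  unfold ind
  split_ifs <;> omega

lemma ne_flip (d : E) (h1 : d ≠ δ) (h2 : d ≠ Γ.flip δ) : Γ.flip d ≠ δ ∧ Γ.flip d ≠ Γ.flip δ := by
  constructor
  · intro h
    apply h2
    rw [← h, Γ.flip_flip]
  · intro h
    exact h1 (Γ.flip.injective h)

open Classical in
lemma prod_eq (d : E) (h1 : d ≠ δ) (h2 : d ≠ Γ.flip δ) (i j : ℤ) :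
    (ind j (P.Y (Γ.flip d)) - ind j (P.Y d)) * (ind i (P.A (Γ.flip d)) - ind i (P.A d)) =
      (if P.Cov d i j then 1 else 0) + (if P.Cov (Γ.flip d) i j then 1 else 0) := by
  obtain ⟨h3, h4⟩ := ne_flip (Γ := Γ) d h1 h2
  have e1 : P.Cov d i j ↔ (P.A d ≤ i ∧ i < P.A (Γ.flip d)) ∧ (P.Y d ≤ j ∧ j < P.Y (Γ.flip d)) :=
    ⟨fun c => ⟨⟨c.a1, c.a2⟩, ⟨c.y1, c.y2⟩⟩, fun c => ⟨h1, h2, c.1.1, c.1.2, c.2.1, c.2.2⟩⟩
  have e2 : P.Cov (Γ.flip d) i j ↔
      (P.A (Γ.flip d) ≤ i ∧ i < P.A d) ∧ (P.Y (Γ.flip d) ≤ j ∧ j < P.Y d) := by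
    constructor
    · intro c
      have := c.a2
      have := c.y2
      rw [Γ.flip_flip] at *
      exact ⟨⟨c.a1, by assumption⟩, ⟨c.y1, by assumption⟩⟩
    · intro c
      refine ⟨h3, h4, c.1.1, ?_, c.2.1, ?_⟩
      · rw [Γ.flip_flip]
        exact c.1.2
      · rw [Γ.flip_flip]
        exact c.2.2
  rw [e1, e2]
  have hh := P.edge d h1 h2
  have hh' := P.edge _ h3 h4
  rw [Γ.flip_flip] at hh'
  generalize P.A d = a at *
  generalize P.A (Γ.flip d) = a' at *
  generalize P.Y d = y at *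
  generalize P.Y (Γ.flip d) = y' at *
  clear e1 e2 h1 h2 h3 h4
  unfold ind
  split_ifs <;> first | rfl | (exfalso; omega)

open Classical in
/-- Every cell of the rectangle lies in exactly one tile, and the tiles do not cover any other
cell. -/
lemma card_cov [Fintype E] (hne : δ ≠ Γ.flip δ) (hh : 0 ≤ h) (hk : 0 ≤ k) (i j : ℤ) :
    (Finset.univ.filter fun d => P.Cov d i j).card =
      if (0 ≤ i ∧ i < k) ∧ (0 ≤ j ∧ j < h) then 1 else 0 := by
  have h0 := stokes Γ (fun d => ind j (P.Y d)) (fun d => ind i (P.A d))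
    (fun d => by simp only [P.Y_rot]) (fun d => by simp only [P.A_rot])
  have h1 : ∀ d, (ind j (P.Y (Γ.flip d)) - ind j (P.Y d)) *
      (ind i (P.A (Γ.flip d)) - ind i (P.A d)) =
      (if P.Cov d i j then 1 else 0) + (if P.Cov (Γ.flip d) i j then 1 else 0) +
      ((if d = δ then (-if (0 ≤ i ∧ i < k) ∧ (0 ≤ j ∧ j < h) then 1 else 0) else 0) +
       (if d = Γ.flip δ then (-if (0 ≤ i ∧ i < k) ∧ (0 ≤ j ∧ j < h) then 1 else 0) else 0)) := by
    intro d
    by_cases d1 : d = δ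
    · subst d1
      have c1 : ¬ P.Cov d i j := fun c => c.ne rfl
      have c2 : ¬ P.Cov (Γ.flip d) i j := fun c => c.ne' rfl
      rw [if_neg c1, if_neg c2, if_pos rfl, if_neg hne, P.Y_u, P.Y_v, P.A_R, P.A_L]
      unfold ind
      split_ifs <;> first | rfl | (exfalso; omega)
    · by_cases d2 : d = Γ.flip δ
      · subst d2
        have c1 : ¬ P.Cov (Γ.flip δ) i j := fun c => c.ne' rfl
        have c2 : ¬ P.Cov (Γ.flip (Γ.flip δ)) i j := fun c => c.ne (Γ.flip_flip δ)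
        rw [if_neg c1, if_neg c2, if_neg d1, if_pos rfl, Γ.flip_flip, P.Y_u, P.Y_v, P.A_R,
          P.A_L]
        unfold ind
        split_ifs <;> first | rfl | (exfalso; omega)
      · rw [P.prod_eq d d1 d2 i j, if_neg d1, if_neg d2]
        ring
  simp only [h1, Finset.sum_add_distrib, Finset.sum_ite_eq', Finset.mem_univ, if_true] at h0
  have h2 : ∑ d, (if P.Cov (Γ.flip d) i j then (1 : ℤ) else 0) =
      ∑ d, if P.Cov d i j then (1 : ℤ) else 0 :=
    Equiv.sum_comp Γ.flip fun d => if P.Cov d i j then (1 : ℤ) else 0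
  rw [h2] at h0
  have h3 : ∑ d, (if P.Cov d i j then (1 : ℤ) else 0) =
      ((Finset.univ.filter fun d => P.Cov d i j).card : ℤ) := by
    rw [Finset.sum_boole]
  rw [h3] at h0
  split_ifs at h0 ⊢ <;> omega

/-- The cells of the tiles lie in the rectangle. -/
lemma Cov.mem [Finite E] {P : Pot Γ δ h k} (hne : δ ≠ Γ.flip δ) (hh : 0 ≤ h) (hk : 0 ≤ k) {d : E}
    {i j : ℤ} (c : P.Cov d i j) : (0 ≤ i ∧ i < k) ∧ (0 ≤ j ∧ j < h) := by
  classical
  cases nonempty_fintype E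
  by_contra hn
  have h1 := P.card_cov hne hh hk i j
  rw [if_neg hn, Finset.card_eq_zero] at h1
  have h2 : d ∈ Finset.univ.filter fun d => P.Cov d i j := by simpa using c
  rw [h1] at h2
  exact absurd h2 (Finset.notMem_empty d)

/-- Every cell of the rectangle lies in exactly one tile. -/
lemma exists_unique [Finite E] (hne : δ ≠ Γ.flip δ) {i j : ℤ} (hi : 0 ≤ i) (hi' : i < k)
    (hj : 0 ≤ j) (hj' : j < h) : ∃! d, P.Cov d i j := by
  classical
  cases nonempty_fintype E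
  have h1 := P.card_cov hne (by omega) (by omega) i j
  rw [if_pos ⟨⟨hi, hi'⟩, hj, hj'⟩, Finset.card_eq_one] at h1
  obtain ⟨d, hd⟩ := h1
  have h2 : ∀ e, P.Cov e i j ↔ e = d := by
    intro e
    have : e ∈ (Finset.univ.filter fun d => P.Cov d i j) ↔ e ∈ ({d} : Finset E) := by rw [hd]
    simpa using this
  exact ⟨d, (h2 d).mpr rfl, fun e he => (h2 e).mp he⟩

lemma Cov.unique [Finite E] {P : Pot Γ δ h k} (hne : δ ≠ Γ.flip δ) (hh : 0 ≤ h) (hk : 0 ≤ k)
    {d e : E} {i j : ℤ} (c : P.Cov d i j) (c' : P.Cov e i j) : d = e := by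
  obtain ⟨⟨h1, h2⟩, h3, h4⟩ := c.mem hne hh hk
  obtain ⟨f, -, hf⟩ := P.exists_unique hne h1 h2 h3 h4
  rw [hf d c, hf e c']

/-- `Y` is constant on the darts of a vertex. -/
lemma Y_same {d e : E} (hs : Γ.rot.SameCycle d e) : P.Y e = P.Y d := by
  obtain ⟨n, rfl⟩ := hs
  have h1 : ∀ (n : ℕ) (x : E), P.Y ((Γ.rot ^ n) x) = P.Y x := by
    intro n
    induction n with
    | zero => intro x; simp
    | succ n ih => intro x; rw [pow_succ, Equiv.Perm.mul_apply, ih, P.Y_rot]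
  obtain ⟨m, hm⟩ := Int.eq_nat_or_neg n
  rcases hm with rfl | rfl
  · rw [zpow_natCast, h1]
  · rw [zpow_neg, zpow_natCast]
    have := h1 m ((Γ.rot ^ m)⁻¹ d)
    rw [← this, ← Equiv.Perm.mul_apply, mul_inv_cancel, Equiv.Perm.one_apply]

/-- If a tile across the column `i` ends at a vertex which is not an end of `δ`, then another
tile across the column `i` starts there. -/
lemma exists_out [Finite E] {d : E} (i : ℤ) (h3 : P.A d ≤ i) (h4 : i < P.A (Γ.flip d))
    (h5 : ¬ Γ.rot.SameCycle (Γ.flip d) δ) (h6 : ¬ Γ.rot.SameCycle (Γ.flip d) (Γ.flip δ)) :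
    ∃ e, Γ.rot.SameCycle (Γ.flip d) e ∧ e ≠ δ ∧ e ≠ Γ.flip δ ∧ P.A e ≤ i ∧
      i < P.A (Γ.flip e) := by
  classical
  cases nonempty_fintype E
  by_contra hn
  push Not at hn
  have h7 := vertex_sum Γ (fun d => ind i (P.A d)) (fun d => by simp only [P.A_rot]) (Γ.flip d)
    (Finset.univ.filter fun e => Γ.rot.SameCycle (Γ.flip d) e) (fun e => by simp)
  have h8 : ∑ e ∈ Finset.univ.filter fun e => Γ.rot.SameCycle (Γ.flip d) e,
      (ind i (P.A (Γ.flip e)) - ind i (P.A e)) < 0 := by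
    apply Finset.sum_neg'
    · intro e he
      have he' : Γ.rot.SameCycle (Γ.flip d) e := by simpa using he
      have h9 := hn e he' (fun hh => h5 (hh ▸ he')) (fun hh => h6 (hh ▸ he'))
      unfold ind
      split_ifs <;> omega
    · refine ⟨Γ.flip d, Finset.mem_filter.mpr
        ⟨Finset.mem_univ _, Equiv.Perm.SameCycle.refl _ _⟩, ?_⟩
      rw [Γ.flip_flip]
      unfold ind
      split_ifs <;> omega
  omega

/-- If a tile across the column `i` starts at a vertex which is not an end of `δ`, then another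
tile across the column `i` ends there. -/
lemma exists_in [Finite E] {d : E} (i : ℤ) (h3 : P.A d ≤ i) (h4 : i < P.A (Γ.flip d))
    (h5 : ¬ Γ.rot.SameCycle d δ) (h6 : ¬ Γ.rot.SameCycle d (Γ.flip δ)) :
    ∃ e, Γ.rot.SameCycle d (Γ.flip e) ∧ e ≠ δ ∧ e ≠ Γ.flip δ ∧ P.A e ≤ i ∧
      i < P.A (Γ.flip e) := by
  classical
  cases nonempty_fintype E
  by_contra hn
  push Not at hn
  have h7 := vertex_sum Γ (fun d => ind i (P.A d)) (fun d => by simp only [P.A_rot]) d
    (Finset.univ.filter fun e => Γ.rot.SameCycle d e) (fun e => by simp)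
  have h8 : 0 < ∑ e ∈ Finset.univ.filter fun e => Γ.rot.SameCycle d e,
      (ind i (P.A (Γ.flip e)) - ind i (P.A e)) := by
    apply Finset.sum_pos'
    · intro e he
      have he' : Γ.rot.SameCycle d e := by simpa using he
      have e1 : e ≠ δ := fun hh => h5 (hh ▸ he')
      have e2 : e ≠ Γ.flip δ := fun hh => h6 (hh ▸ he')
      obtain ⟨e3, e4⟩ := ne_flip (Γ := Γ) e e1 e2
      have h9 := hn (Γ.flip e) (by rwa [Γ.flip_flip]) e3 e4
      rw [Γ.flip_flip] at h9
      unfold ind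
      split_ifs <;> omega
    · refine ⟨d, Finset.mem_filter.mpr
        ⟨Finset.mem_univ _, Equiv.Perm.SameCycle.refl _ _⟩, ?_⟩
      unfold ind
      split_ifs <;> omega
  omega

/-- Consecutive tiles of a column: the end of the first is the start of the second. -/
lemma next_col [Finite E] (hne : δ ≠ Γ.flip δ) (hh : 0 ≤ h) (hk : 0 ≤ k) {d e : E} {i : ℤ}
    (d1 : d ≠ δ) (d2 : d ≠ Γ.flip δ) (d3 : P.A d ≤ i) (d4 : i < P.A (Γ.flip d))
    (e1 : e ≠ δ) (e2 : e ≠ Γ.flip δ) (e3 : P.A e ≤ i) (e4 : i < P.A (Γ.flip e))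
    (hy : P.Y e = P.Y (Γ.flip d)) : Γ.rot.SameCycle (Γ.flip d) e := by
  have y1 := P.edge d d1 d2 (by omega)
  have y2 := P.edge e e1 e2 (by omega)
  have cd : P.Cov d i (P.Y d) := ⟨d1, d2, d3, d4, le_rfl, y1⟩
  have ce : P.Cov e i (P.Y e) := ⟨e1, e2, e3, e4, le_rfl, y2⟩
  have m1 := cd.mem hne hh hk
  have m2 := ce.mem hne hh hk
  have n1 : ¬ Γ.rot.SameCycle (Γ.flip d) δ := fun hs => by
    have := P.Y_same hs
    rw [P.Y_u] at this
    omega
  have n2 : ¬ Γ.rot.SameCycle (Γ.flip d) (Γ.flip δ) := fun hs => by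
    have := P.Y_same hs
    rw [P.Y_v] at this
    omega
  obtain ⟨f, f0, f1, f2, f3, f4⟩ := P.exists_out i d3 d4 n1 n2
  have y3 := P.edge f f1 f2 (by omega)
  have y4 := P.Y_same f0
  have cf : P.Cov f i (P.Y e) := ⟨f1, f2, f3, f4, by omega, by omega⟩
  rwa [ce.unique hne hh hk cf]

/-- The first tile of a column starts at the start of `δ`. -/
lemma first_col [Finite E] (hne : δ ≠ Γ.flip δ) (hh : 0 < h) (hk : 0 ≤ k) {d : E} (d3 : P.A d < P.A (Γ.flip d)) (hy : P.Y d = 0) :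
    Γ.rot.SameCycle d δ := by
  by_contra n1
  have n2 : ¬ Γ.rot.SameCycle d (Γ.flip δ) := fun hs => by
    have := P.Y_same hs
    rw [P.Y_v] at this
    omega
  obtain ⟨f, f0, f1, f2, f3, f4⟩ := P.exists_in (P.A d) le_rfl d3 n1 n2
  have y3 := P.edge f f1 f2 (by omega)
  have y4 := P.Y_same f0
  have cf : P.Cov f (P.A d) (P.Y f) := ⟨f1, f2, f3, f4, le_rfl, y3⟩
  have := cf.mem hne hh.le hk
  omega

/-- The last tile of a column ends at the end of `δ`. -/
lemma last_col [Finite E] (hne : δ ≠ Γ.flip δ) (hh : 0 < h) (hk : 0 ≤ k) {d : E} (d3 : P.A d < P.A (Γ.flip d))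
    (hy : P.Y (Γ.flip d) = h) : Γ.rot.SameCycle (Γ.flip d) (Γ.flip δ) := by
  by_contra n2
  have n1 : ¬ Γ.rot.SameCycle (Γ.flip d) δ := fun hs => by
    have := P.Y_same hs
    rw [P.Y_u] at this
    omega
  obtain ⟨f, f0, f1, f2, f3, f4⟩ := P.exists_out (P.A d) le_rfl d3 n1 n2
  have y3 := P.edge f f1 f2 (by omega)
  have y4 := P.Y_same f0
  have cf : P.Cov f (P.A d) (P.Y f) := ⟨f1, f2, f3, f4, le_rfl, y3⟩
  have := cf.mem hne hh.le hk
  omega

end Pot

end Pool.Agent.Helper74.TW
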