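import Mathlib
import Pool.Agent.Helper74.TW.Grid
import Pool.Agent.Helper61.TL.Defs
import Pool.Agent.Helper61.TL.Tile

/-!
The dissection of a rectangle into squares which is given by the potentials of a diagram.
-/

set_option autoImplicit false

namespace Pool.Agent.Helper74.TW

open Pool.Agent.Helper42.Th Pool.Agent.Helper61.TL

variable {E : Type} {G : Type*} [Group G] {Γ : CMap E} {L : Lab G Γ} {δ : E} {h k : ℕ}
  {H A : E → ℕ}

/-- A function which is constant on the darts of a vertex. -/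
lemma const_same {α : Type*} {f : E → α} (hf : ∀ d, f (Γ.rot d) = f d) {d e : E}
    (hs : Γ.rot.SameCycle d e) : f e = f d := by
  obtain ⟨n, rfl⟩ := hs
  have h1 : ∀ (n : ℕ) (x : E), f ((Γ.rot ^ n) x) = f x := by
    intro n
    induction n with
    | zero => intro x; simp
    | succ n ih => intro x; rw [pow_succ, Equiv.Perm.mul_apply, ih, hf]
  obtain ⟨m, hm⟩ := Int.eq_nat_or_neg n
  rcases hm with rfl | rfl
  · rw [zpow_natCast, h1]
  · rw [zpow_neg, zpow_natCast]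
    have := h1 m ((Γ.rot ^ m)⁻¹ d)
    rw [← this, ← Equiv.Perm.mul_apply, mul_inv_cancel, Equiv.Perm.one_apply]

/-- The dart `d` is the downward dart of a tile. -/
def IsTile (Γ : CMap E) (δ : E) (A : E → ℕ) (d : E) : Prop :=
  d ≠ δ ∧ d ≠ Γ.flip δ ∧ A (Γ.flip d) < A d

/-- The number of the squares of a tile. -/
def len (Γ : CMap E) (H A : E → ℕ) (d : E) : ℕ := (H d - H (Γ.flip d)) / (A d - A (Γ.flip d))

lemma tile_len (T : Tiles L δ h k H A) {d : E} (hd : IsTile Γ δ A d) :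
    0 < len Γ H A d ∧ H d = H (Γ.flip d) + len Γ H A d * (A d - A (Γ.flip d)) ∧
      Twist L δ d (len Γ H A d) := by
  obtain ⟨h1, h2, h3⟩ := hd
  obtain ⟨l, h4, h5, h6⟩ := T.tile d h1 h2 h3
  have h7 : len Γ H A d = l := by
    unfold len
    rw [h5, Nat.add_sub_cancel_left, Nat.mul_div_cancel _ (by omega)]
  rw [h7]
  exact ⟨h4, h5, h6⟩

/-- The potentials of a dissection. -/
def ofTiles (T : Tiles L δ h k H A) : Pot Γ (Γ.flip δ) h k where
  Y d := H d
  A d := A d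
  Y_rot d := by rw [T.H_rot]
  A_rot d := by rw [T.A_rot]
  Y_u := by rw [T.H_lo]; rfl
  Y_v := by rw [Γ.flip_flip, T.H_hi]
  A_R := by rw [T.A_hi]
  A_L := by rw [Γ.flip_flip, T.A_lo]; rfl
  edge d h1 h2 h3 := by
    rw [Γ.flip_flip] at h2
    have h4 : IsTile Γ δ A (Γ.flip d) := by
      refine ⟨fun hh => h1 ?_, fun hh => h2 (Γ.flip.injective hh), ?_⟩
      · rw [← hh, Γ.flip_flip]
      · rw [Γ.flip_flip]
        exact_mod_cast h3
    obtain ⟨h5, h6, -⟩ := tile_len T h4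
    rw [Γ.flip_flip] at h6
    have h7 : 0 < len Γ H A (Γ.flip d) * (A (Γ.flip d) - A d) :=
      Nat.mul_pos h5 (Nat.sub_pos_of_lt (by exact_mod_cast h3))
    have h8 : H d < H (Γ.flip d) := by omega
    exact_mod_cast h8

lemma cov_iff (T : Tiles L δ h k H A) {d : E} {i j : ℕ} :
    (ofTiles T).Cov (Γ.flip d) i j ↔
      IsTile Γ δ A d ∧ A (Γ.flip d) ≤ i ∧ i < A d ∧ H (Γ.flip d) ≤ j ∧ j < H d := by
  constructor
  · rintro ⟨h1, h2, h3, h4, h5, h6⟩
    rw [Γ.flip_flip] at h2 h4 h6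
    change ((A (Γ.flip d) : ℤ)) ≤ i at h3
    change (i : ℤ) < A d at h4
    change ((H (Γ.flip d) : ℤ)) ≤ j at h5
    change (j : ℤ) < H d at h6
    refine ⟨⟨fun hh => h1 (by rw [hh]), fun hh => h2 (by rw [hh, Γ.flip_flip]), by omega⟩,
      by omega, by omega, by omega, by omega⟩
  · rintro ⟨⟨h1, h2, -⟩, h3, h4, h5, h6⟩
    refine ⟨fun hh => h1 (Γ.flip.injective hh), fun hh => h2 ?_, ?_, ?_, ?_, ?_⟩
    · exact Γ.flip.injective hh
    · change ((A (Γ.flip d) : ℤ)) ≤ i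
      omega
    · change (i : ℤ) < A (Γ.flip (Γ.flip d))
      rw [Γ.flip_flip]
      omega
    · change ((H (Γ.flip d) : ℤ)) ≤ j
      omega
    · change (j : ℤ) < H (Γ.flip (Γ.flip d))
      rw [Γ.flip_flip]
      omega

lemma hne (Γ : CMap E) (δ : E) : Γ.flip δ ≠ Γ.flip (Γ.flip δ) := by
  rw [Γ.flip_flip]
  exact Γ.flip_ne δ

section

variable [Finite E] (T : Tiles L δ h k H A)
include T

/-- Every unit cell of the rectangle lies in a tile. -/
lemma exists_tile {i j : ℕ} (hi : i < k) (hj : j < h) :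
    ∃ d, IsTile Γ δ A d ∧ A (Γ.flip d) ≤ i ∧ i < A d ∧ H (Γ.flip d) ≤ j ∧ j < H d := by
  obtain ⟨d, hd, -⟩ := (ofTiles T).exists_unique (hne Γ δ) (i := i) (j := j) (by omega)
    (by omega) (by omega) (by omega)
  refine ⟨Γ.flip d, (cov_iff T).mp ?_⟩
  rwa [Γ.flip_flip]

/-- Every unit cell lies in at most one tile. -/
lemma tile_unique {i j : ℕ} {d e : E} (hd : IsTile Γ δ A d) (d1 : A (Γ.flip d) ≤ i)
    (d2 : i < A d) (d3 : H (Γ.flip d) ≤ j) (d4 : j < H d) (he : IsTile Γ δ A e)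
    (e1 : A (Γ.flip e) ≤ i) (e2 : i < A e) (e3 : H (Γ.flip e) ≤ j) (e4 : j < H e) : d = e := by
  have c1 := (cov_iff T).mpr ⟨hd, d1, d2, d3, d4⟩
  have c2 := (cov_iff T).mpr ⟨he, e1, e2, e3, e4⟩
  exact Γ.flip.injective (c1.unique (hne Γ δ) (by omega) (by omega) c2)

/-- Consecutive tiles of a column have a common vertex. -/
lemma tile_next {i : ℕ} {d e : E} (hd : IsTile Γ δ A d) (d1 : A (Γ.flip d) ≤ i)
    (d2 : i < A d) (he : IsTile Γ δ A e) (e1 : A (Γ.flip e) ≤ i) (e2 : i < A e)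
    (hy : H d = H (Γ.flip e)) : Γ.rot.SameCycle d (Γ.flip e) := by
  have h1 := (ofTiles T).next_col (hne Γ δ) (by omega) (by omega) (i := i) (d := Γ.flip d)
    (e := Γ.flip e) (fun hh => hd.1 (Γ.flip.injective hh))
    (fun hh => hd.2.1 (Γ.flip.injective hh)) (by change ((A (Γ.flip d) : ℤ)) ≤ i; omega)
    (by change (i : ℤ) < A (Γ.flip (Γ.flip d)); rw [Γ.flip_flip]; omega)
    (fun hh => he.1 (Γ.flip.injective hh)) (fun hh => he.2.1 (Γ.flip.injective hh))
    (by change ((A (Γ.flip e) : ℤ)) ≤ i; omega)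
    (by change (i : ℤ) < A (Γ.flip (Γ.flip e)); rw [Γ.flip_flip]; omega)
    (by change ((H (Γ.flip e) : ℤ)) = H (Γ.flip (Γ.flip d)); rw [Γ.flip_flip]; omega)
  rwa [Γ.flip_flip] at h1

/-- The lowest tiles start at the lowest vertex. -/
lemma tile_first (hh : 0 < h) {d : E} (hd : IsTile Γ δ A d) (hy : H (Γ.flip d) = 0) :
    Γ.rot.SameCycle (Γ.flip d) (Γ.flip δ) := by
  refine (ofTiles T).first_col (hne Γ δ) (by omega) (by omega) (d := Γ.flip d) ?_ ?_
  · change ((A (Γ.flip d) : ℤ)) < A (Γ.flip (Γ.flip d))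
    rw [Γ.flip_flip]
    have := hd.2.2
    omega
  · change ((H (Γ.flip d) : ℤ)) = 0
    omega

/-- The highest tiles end at the highest vertex. -/
lemma tile_last (hh : 0 < h) {d : E} (hd : IsTile Γ δ A d) (hy : H d = h) :
    Γ.rot.SameCycle d δ := by
  have h1 := (ofTiles T).last_col (hne Γ δ) (by omega) (by omega) (d := Γ.flip d)
    (by
      change ((A (Γ.flip d) : ℤ)) < A (Γ.flip (Γ.flip d))
      rw [Γ.flip_flip]
      have := hd.2.2
      omega)
    (by
      change ((H (Γ.flip (Γ.flip d)) : ℤ)) = h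
      rw [Γ.flip_flip]
      omega)
  rwa [Γ.flip_flip, Γ.flip_flip] at h1

end

/-- The squares. -/
abbrev Sqs (Γ : CMap E) (δ : E) (H A : E → ℕ) : Type :=
  Σ d : {d : E // IsTile Γ δ A d}, Fin (len Γ H A d.1)

noncomputable instance [Finite E] : Fintype (Sqs Γ δ H A) := Fintype.ofFinite _

section

variable (T : Tiles L δ h k H A)
include T

lemma band {d : E} (hd : IsTile Γ δ A d) {p : ℕ} (hp : p < len Γ H A d) :
    H (Γ.flip d) + (p + 1) * (A d - A (Γ.flip d)) ≤ H d := by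
  obtain ⟨-, h1, -⟩ := tile_len T hd
  have h2 : (p + 1) * (A d - A (Γ.flip d)) ≤ len Γ H A d * (A d - A (Γ.flip d)) :=
    Nat.mul_le_mul_right _ hp
  omega

/-- The squares dissect the rectangle. -/
lemma sq_cover [Finite E] {i j : ℕ} (hi : i < k) (hj : j < h) :
    ∃ e : Sqs Γ δ H A, InSq (A (Γ.flip e.1.1))
      (H (Γ.flip e.1.1) + e.2 * (A e.1.1 - A (Γ.flip e.1.1))) (A e.1.1 - A (Γ.flip e.1.1)) i j := by
  obtain ⟨d, hd, d1, d2, d3, d4⟩ := exists_tile T hi hj
  obtain ⟨-, h1, -⟩ := tile_len T hd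
  have hw : 0 < A d - A (Γ.flip d) := by omega
  have h2 : (j - H (Γ.flip d)) / (A d - A (Γ.flip d)) < len Γ H A d := by
    rw [Nat.div_lt_iff_lt_mul hw]
    omega
  have h3 := Nat.div_add_mod (j - H (Γ.flip d)) (A d - A (Γ.flip d))
  have h4 := Nat.mod_lt (j - H (Γ.flip d)) hw
  rw [Nat.mul_comm] at h3
  refine ⟨⟨⟨d, hd⟩, ⟨_, h2⟩⟩, d1, ?_, ?_, ?_⟩
  · change i < A (Γ.flip d) + (A d - A (Γ.flip d))
    omega
  · change H (Γ.flip d) + (j - H (Γ.flip d)) / (A d - A (Γ.flip d)) * (A d - A (Γ.flip d)) ≤ j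
    omega
  · change j < H (Γ.flip d) + (j - H (Γ.flip d)) / (A d - A (Γ.flip d)) *
      (A d - A (Γ.flip d)) + (A d - A (Γ.flip d))
    omega

lemma sq_mem {e : Sqs Γ δ H A} {i j : ℕ} (he : InSq (A (Γ.flip e.1.1))
      (H (Γ.flip e.1.1) + e.2 * (A e.1.1 - A (Γ.flip e.1.1))) (A e.1.1 - A (Γ.flip e.1.1)) i j) :
    A (Γ.flip e.1.1) ≤ i ∧ i < A e.1.1 ∧ H (Γ.flip e.1.1) ≤ j ∧ j < H e.1.1 := by
  obtain ⟨⟨d, hd⟩, ⟨p, hp⟩⟩ := e
  obtain ⟨h1, h2, h3, h4⟩ := he
  have h5 := band T hd hp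
  have h6 := hd.2.2
  simp only at *
  rw [add_mul, one_mul] at h5
  generalize p * (A d - A (Γ.flip d)) = w at *
  omega

lemma sq_disj [Finite E] (e e' : Sqs Γ δ H A) (i j : ℕ)
    (h1 : InSq (A (Γ.flip e.1.1))
      (H (Γ.flip e.1.1) + e.2 * (A e.1.1 - A (Γ.flip e.1.1))) (A e.1.1 - A (Γ.flip e.1.1)) i j)
    (h2 : InSq (A (Γ.flip e'.1.1))
      (H (Γ.flip e'.1.1) + e'.2 * (A e'.1.1 - A (Γ.flip e'.1.1)))
      (A e'.1.1 - A (Γ.flip e'.1.1)) i j) : e = e' := by
  obtain ⟨a1, a2, a3, a4⟩ := sq_mem T h1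
  obtain ⟨b1, b2, b3, b4⟩ := sq_mem T h2
  obtain ⟨⟨d, hd⟩, ⟨p, hp⟩⟩ := e
  obtain ⟨⟨d', hd'⟩, ⟨p', hp'⟩⟩ := e'
  have h3 : d = d' := tile_unique T hd a1 a2 a3 a4 hd' b1 b2 b3 b4
  subst h3
  have hw : A (Γ.flip d) < A d := hd.2.2
  obtain ⟨-, -, h5, h6⟩ := h1
  obtain ⟨-, -, h7, h8⟩ := h2
  change H (Γ.flip d) + p * (A d - A (Γ.flip d)) ≤ j at h5
  change j < H (Γ.flip d) + p * (A d - A (Γ.flip d)) + (A d - A (Γ.flip d)) at h6
  change H (Γ.flip d) + p' * (A d - A (Γ.flip d)) ≤ j at h7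
  change j < H (Γ.flip d) + p' * (A d - A (Γ.flip d)) + (A d - A (Γ.flip d)) at h8
  have h9 : p = p' := by
    rcases lt_trichotomy p p' with h9 | h9 | h9
    · exfalso
      have h10 : (p + 1) * (A d - A (Γ.flip d)) ≤ p' * (A d - A (Γ.flip d)) :=
        Nat.mul_le_mul_right _ h9
      rw [add_mul, one_mul] at h10
      omega
    · exact h9
    · exfalso
      have h10 : (p' + 1) * (A d - A (Γ.flip d)) ≤ p * (A d - A (Γ.flip d)) :=
        Nat.mul_le_mul_right _ h9
      rw [add_mul, one_mul] at h10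
      omega
  subst h9
  rfl

end

/-- The tiling of the rectangle by squares, the labels of which have the four properties of the
labels of the diagram. -/
theorem exists_tiling_of [Finite E] (hh : 0 < h) (T : Tiles L δ h k H A)
    {X : Type*} [LinearOrder X] {a b : X ≃o X} (S F : E → X ≃o X) (mid : E → ℕ → X ≃o X)
    (hS : ∀ d, S (Γ.rot d) = S d) (hlo : ∀ z, S (Γ.flip δ) z = z) (hhi : ∀ z, S δ z = a z)
    (hm0 : ∀ d, IsTile Γ δ A d → mid d 0 = S (Γ.flip d))
    (hm1 : ∀ d, IsTile Γ δ A d → mid d (len Γ H A d) = S d)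
    (hleft : ∀ d, IsTile Γ δ A d → A (Γ.flip d) = 0 → ∀ z, F (Γ.flip d) z ≤ z)
    (hright : ∀ d, IsTile Γ δ A d → A d = k → ∀ z, b z ≤ F d z)
    (hrow : ∀ d e j, IsTile Γ δ A d → IsTile Γ δ A e → H (Γ.flip d) ≤ j → j < H d →
      H (Γ.flip e) ≤ j → j < H e → A d = A (Γ.flip e) → ∀ z, F (Γ.flip e) z ≤ F d z)
    (hcell : ∀ d p x y, IsTile Γ δ A d → p < len Γ H A d → F (Γ.flip d) y ≤ mid d p x →
      F d y ≤ mid d (p + 1) x) :
    ∃ U : Tiling X h k a b (Sqs Γ δ H A), ∑ e, U.sz e = total Γ δ H A ∧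
      ∀ e, U.al e = A (Γ.flip e.1.1) ∧
        U.yt e = H (Γ.flip e.1.1) + e.2 * (A e.1.1 - A (Γ.flip e.1.1)) ∧
        U.sz e = A e.1.1 - A (Γ.flip e.1.1) ∧ U.lt e = F (Γ.flip e.1.1) ∧ U.rt e = F e.1.1 ∧
        U.lo e = mid e.1.1 e.2 ∧ U.up e = mid e.1.1 (e.2 + 1) := by
  refine ⟨{
    al := fun e => A (Γ.flip e.1.1)
    yt := fun e => H (Γ.flip e.1.1) + e.2 * (A e.1.1 - A (Γ.flip e.1.1))
    sz := fun e => A e.1.1 - A (Γ.flip e.1.1)
    pos := fun e => Nat.sub_pos_of_lt e.1.2.2.2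
    colb := fun e => by
      have h1 := e.1.2.2.2
      have h2 := T.A_le e.1.1
      omega
    rowb := fun e => by
      have h1 := band T e.1.2 e.2.2
      have h2 := T.H_le e.1.1
      rw [add_mul, one_mul] at h1
      omega
    cover := fun i hi j hj => sq_cover T hi hj
    disj := sq_disj T
    lo := fun e => mid e.1.1 e.2
    up := fun e => mid e.1.1 (e.2 + 1)
    lt := fun e => F (Γ.flip e.1.1)
    rt := fun e => F e.1.1
    bot := ?_
    top := ?_
    vert := ?_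
    left := fun e he => hleft _ e.1.2 he
    right := fun e he => hright _ e.1.2 (by have := e.1.2.2.2; omega)
    horz := ?_
    cell := fun e x y hxy => hcell _ _ _ _ e.1.2 e.2.2 hxy }, ?_,
    fun e => ⟨rfl, rfl, rfl, rfl, rfl, rfl, rfl⟩⟩
  · rintro ⟨⟨d, hd⟩, ⟨p, hp⟩⟩ he z
    change p < len Γ H A d at hp
    change H (Γ.flip d) + p * (A d - A (Γ.flip d)) = 0 at he
    change mid d p z = z
    have hw := hd.2.2
    have h1 : p = 0 := by
      rcases Nat.eq_zero_or_pos p with h1 | h1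
      · exact h1
      · exfalso
        have := Nat.mul_pos h1 (Nat.sub_pos_of_lt hw)
        omega
    subst h1
    rw [hm0 d hd, ← const_same hS (tile_first T hh hd (by omega)), hlo]
  · rintro ⟨⟨d, hd⟩, ⟨p, hp⟩⟩ he z
    change p < len Γ H A d at hp
    change H (Γ.flip d) + p * (A d - A (Γ.flip d)) + (A d - A (Γ.flip d)) = h at he
    change mid d (p + 1) z = a z
    have hw := hd.2.2
    have h1 := band T hd hp
    have h2 := T.H_le d
    obtain ⟨-, h3, -⟩ := tile_len T hd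
    rw [add_mul, one_mul] at h1
    have h4 : p + 1 = len Γ H A d := by
      by_contra hne
      have h5 : p + 2 ≤ len Γ H A d := by omega
      have h6 : (p + 2) * (A d - A (Γ.flip d)) ≤ len Γ H A d * (A d - A (Γ.flip d)) :=
        Nat.mul_le_mul_right _ h5
      rw [add_mul] at h6
      omega
    rw [h4, hm1 d hd, ← hhi z, const_same hS (tile_last T hh hd (by omega))]
  · rintro ⟨⟨d, hd⟩, ⟨p, hp⟩⟩ ⟨⟨d', hd'⟩, ⟨p', hp'⟩⟩ i e1 e2 e3 e4 e5 z
    change p < len Γ H A d at hp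
    change p' < len Γ H A d' at hp'
    change A (Γ.flip d) ≤ i at e1
    change i < A (Γ.flip d) + (A d - A (Γ.flip d)) at e2
    change A (Γ.flip d') ≤ i at e3
    change i < A (Γ.flip d') + (A d' - A (Γ.flip d')) at e4
    change H (Γ.flip d) + p * (A d - A (Γ.flip d)) + (A d - A (Γ.flip d)) =
      H (Γ.flip d') + p' * (A d' - A (Γ.flip d')) at e5
    change mid d (p + 1) z = mid d' p' z
    have hw := hd.2.2
    have hw' := hd'.2.2
    have h1 := band T hd hp
    have h1' := band T hd' hp'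
    obtain ⟨-, h3, -⟩ := tile_len T hd
    obtain ⟨-, h3', -⟩ := tile_len T hd'
    rw [add_mul, one_mul] at h1 h1'
    by_cases hdd : d = d'
    · subst hdd
      have h4 : p + 1 = p' := by
        have h5 : (p + 1) * (A d - A (Γ.flip d)) = p' * (A d - A (Γ.flip d)) := by
          rw [add_mul, one_mul]
          omega
        exact Nat.eq_of_mul_eq_mul_right (by omega) h5
      rw [h4]
    · have h4 : p + 1 = len Γ H A d := by
        by_contra hne
        have h5 : p + 2 ≤ len Γ H A d := by omega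
        have h6 : (p + 2) * (A d - A (Γ.flip d)) ≤ len Γ H A d * (A d - A (Γ.flip d)) :=
          Nat.mul_le_mul_right _ h5
        rw [add_mul] at h6
        exact hdd (tile_unique T (i := i)
          (j := H (Γ.flip d') + p' * (A d' - A (Γ.flip d'))) hd (by omega) (by omega) (by omega)
          (by omega) hd' (by omega) (by omega) (by omega) (by omega))
      have h5 : p' = 0 := by
        rcases Nat.eq_zero_or_pos p' with h5 | h5
        · exact h5
        · exfalso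
          have h6 := Nat.mul_pos h5 (Nat.sub_pos_of_lt hw')
          exact hdd (tile_unique T (i := i)
            (j := H (Γ.flip d') + p' * (A d' - A (Γ.flip d')) - 1) hd (by omega) (by omega)
            (by omega) (by omega) hd' (by omega) (by omega) (by omega) (by omega))
      subst h5
      have h6 : (p + 1) * (A d - A (Γ.flip d)) = len Γ H A d * (A d - A (Γ.flip d)) := by
        rw [h4]
      rw [add_mul, one_mul] at h6
      rw [h4, hm1 d hd, hm0 d' hd', const_same hS (tile_next T (i := i) hd (by omega) (by omega)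
        hd' (by omega) (by omega) (by omega))]
  · rintro ⟨⟨d, hd⟩, ⟨p, hp⟩⟩ ⟨⟨d', hd'⟩, ⟨p', hp'⟩⟩ j e1 e2 e3 e4 e5 z
    change p < len Γ H A d at hp
    change p' < len Γ H A d' at hp'
    change H (Γ.flip d) + p * (A d - A (Γ.flip d)) ≤ j at e1
    change j < H (Γ.flip d) + p * (A d - A (Γ.flip d)) + (A d - A (Γ.flip d)) at e2
    change H (Γ.flip d') + p' * (A d' - A (Γ.flip d')) ≤ j at e3
    change j < H (Γ.flip d') + p' * (A d' - A (Γ.flip d')) + (A d' - A (Γ.flip d')) at e4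
    change A (Γ.flip d) + (A d - A (Γ.flip d)) = A (Γ.flip d') at e5
    have hw := hd.2.2
    have hw' := hd'.2.2
    have h1 := band T hd hp
    have h1' := band T hd' hp'
    rw [add_mul, one_mul] at h1 h1'
    exact hrow d d' j hd hd' (by omega) (by omega) (by omega) (by omega) (by omega) z
  · unfold total
    classical
    cases nonempty_fintype E
    change ∑ e : Sqs Γ δ H A, (A e.1.1 - A (Γ.flip e.1.1)) = _
    have h1 : ∀ d : {d : E // IsTile Γ δ A d},
        ∑ _p : Fin (len Γ H A d.1), (A d.1 - A (Γ.flip d.1)) = H d.1 - H (Γ.flip d.1) := by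
      intro d
      obtain ⟨-, h3, -⟩ := tile_len T d.2
      rw [Finset.sum_const, Finset.card_univ, Fintype.card_fin, smul_eq_mul]
      omega
    have h2 : ∑ e : Sqs Γ δ H A, (A e.1.1 - A (Γ.flip e.1.1)) =
        ∑ d : {d : E // IsTile Γ δ A d}, (H d.1 - H (Γ.flip d.1)) := by
      rw [← Finset.sum_congr rfl fun d _ => h1 d]
      refine (Finset.sum_congr ?_ fun _ _ => rfl).trans (Fintype.sum_sigma _)
      ext
      simp
    rw [h2]
    have h3 : {d | d ≠ Γ.flip δ ∧ A (Γ.flip d) < A d} = {d | IsTile Γ δ A d} := by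
      ext d
      constructor
      · rintro ⟨h4, h5⟩
        refine ⟨fun hd => ?_, h4, h5⟩
        rw [hd, T.A_lo] at h5
        omega
      · rintro ⟨-, h4, h5⟩
        exact ⟨h4, h5⟩
    rw [h3, ← finsum_subtype_eq_finsum_cond, finsum_eq_sum_of_fintype]
    rfl

end Pool.Agent.Helper74.TW
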