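import Mathlib
import Pool.Agent.Helper74.TW.Grid

/-!
The tiling of the rectangle by the squares of a graph with integer potentials, in natural
numbers.
-/

set_option autoImplicit false

namespace Pool.Agent.Helper74.TW

open Pool.Agent.Helper42.Th

namespace Pot

variable {E : Type} {Γ : CMap E} {δ : E} {h k : ℕ} (P : Pot Γ δ h k)

/-- The darts of the tiles; every tile has one forward dart. -/
abbrev T : Type := {d : E // d ≠ δ ∧ d ≠ Γ.flip δ ∧ P.A d < P.A (Γ.flip d)}

noncomputable instance [Finite E] : Fintype P.T := Fintype.ofFinite _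

/-- The position of the left side. -/
def al (d : P.T) : ℕ := (P.A d.1).toNat

/-- The position of the right side. -/
def ar (d : P.T) : ℕ := (P.A (Γ.flip d.1)).toNat

/-- The position of the lower side. -/
def yt (d : P.T) : ℕ := (P.Y d.1).toNat

/-- The position of the upper side. -/
def yh (d : P.T) : ℕ := (P.Y (Γ.flip d.1)).toNat

lemma ne' (Γ : CMap E) (δ : E) : δ ≠ Γ.flip δ := fun hh => Γ.flip_ne δ hh.symm

variable [Finite E]

lemma bounds (d : P.T) : 0 ≤ P.A d.1 ∧ P.A d.1 < P.A (Γ.flip d.1) ∧ P.A (Γ.flip d.1) ≤ k ∧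
    0 ≤ P.Y d.1 ∧ P.Y d.1 < P.Y (Γ.flip d.1) ∧ P.Y (Γ.flip d.1) ≤ h := by
  obtain ⟨d, d1, d2, d3⟩ := d
  have hy := P.edge d d1 d2 d3
  have c1 : P.Cov d (P.A d) (P.Y d) := ⟨d1, d2, le_rfl, d3, le_rfl, hy⟩
  have c2 : P.Cov d (P.A (Γ.flip d) - 1) (P.Y (Γ.flip d) - 1) :=
    ⟨d1, d2, by omega, by omega, by omega, by omega⟩
  have m1 := c1.mem (ne' Γ δ) (by omega) (by omega)
  have m2 := c2.mem (ne' Γ δ) (by omega) (by omega)
  simp only
  omega

lemma al_eq (d : P.T) : (P.al d : ℤ) = P.A d.1 := Int.toNat_of_nonneg (P.bounds d).1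

lemma ar_eq (d : P.T) : (P.ar d : ℤ) = P.A (Γ.flip d.1) :=
  Int.toNat_of_nonneg (by have := P.bounds d; omega)

lemma yt_eq (d : P.T) : (P.yt d : ℤ) = P.Y d.1 := Int.toNat_of_nonneg (P.bounds d).2.2.2.1

lemma yh_eq (d : P.T) : (P.yh d : ℤ) = P.Y (Γ.flip d.1) :=
  Int.toNat_of_nonneg (by have := P.bounds d; omega)

lemma al_lt (d : P.T) : P.al d < P.ar d := by
  have := P.bounds d
  have := P.al_eq d
  have := P.ar_eq d
  omega

lemma ar_le (d : P.T) : P.ar d ≤ k := by
  have := P.bounds d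
  have := P.ar_eq d
  omega

lemma yt_lt (d : P.T) : P.yt d < P.yh d := by
  have := P.bounds d
  have := P.yt_eq d
  have := P.yh_eq d
  omega

lemma yh_le (d : P.T) : P.yh d ≤ h := by
  have := P.bounds d
  have := P.yh_eq d
  omega

lemma cov_iff (d : P.T) (i j : ℕ) : P.Cov d.1 i j ↔
    (P.al d ≤ i ∧ i < P.ar d) ∧ (P.yt d ≤ j ∧ j < P.yh d) := by
  have := P.al_eq d
  have := P.ar_eq d
  have := P.yt_eq d
  have := P.yh_eq d
  constructor
  · intro c
    have := c.a1
    have := c.a2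
    have := c.y1
    have := c.y2
    omega
  · intro c
    exact ⟨d.2.1, d.2.2.1, by omega, by omega, by omega, by omega⟩

/-- Every cell of the rectangle lies in exactly one tile. -/
lemma part (i : ℕ) (hi : i < k) (j : ℕ) (hj : j < h) :
    ∃! d : P.T, (P.al d ≤ i ∧ i < P.ar d) ∧ (P.yt d ≤ j ∧ j < P.yh d) := by
  obtain ⟨d, hd, hun⟩ := P.exists_unique (ne' Γ δ) (i := i) (j := j) (by omega) (by omega)
    (by omega) (by omega)
  have h1 : P.A d < P.A (Γ.flip d) := by
    have := hd.a1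
    have := hd.a2
    omega
  refine ⟨⟨d, hd.ne, hd.ne', h1⟩, (P.cov_iff _ i j).mp hd, fun e he => ?_⟩
  exact Subtype.ext (hun e.1 ((P.cov_iff e i j).mpr he))

/-- The upper side of a tile and the lower side of the next tile of a column belong to the same
vertex. -/
lemma col (d e : P.T) (i : ℕ) (d1 : P.al d ≤ i) (d2 : i < P.ar d) (e1 : P.al e ≤ i)
    (e2 : i < P.ar e) (hy : P.yt e = P.yh d) : Γ.rot.SameCycle (Γ.flip d.1) e.1 := by
  have := P.al_eq d
  have := P.ar_eq d
  have := P.yh_eq d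
  have := P.al_eq e
  have := P.ar_eq e
  have := P.yt_eq e
  exact P.next_col (ne' Γ δ) (by omega) (by omega) (i := i) d.2.1 d.2.2.1 (by omega) (by omega)
    e.2.1 e.2.2.1 (by omega) (by omega) (by omega)

/-- The lowest tiles start at the start of `δ`. -/
lemma bot (d : P.T) (hy : P.yt d = 0) : Γ.rot.SameCycle d.1 δ := by
  have h1 := P.yt_eq d
  have h2 := P.yt_lt d
  have h3 := P.yh_le d
  exact P.first_col (ne' Γ δ) (by omega) (by omega) d.2.2.2 (by omega)

/-- The highest tiles end at the end of `δ`. -/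
lemma top (d : P.T) (hy : P.yh d = h) : Γ.rot.SameCycle (Γ.flip d.1) (Γ.flip δ) := by
  have h1 := P.yh_eq d
  have h2 := P.yt_lt d
  exact P.last_col (ne' Γ δ) (by omega) (by omega) d.2.2.2 (by omega)

end Pot

end Pool.Agent.Helper74.TW
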