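import Mathlib
import Pool.Agent.Helper74.TW.Fmt

/-!
The faces between two consecutive tiles of a row.
-/

set_option autoImplicit false

namespace Pool.Agent.Helper74.TW

open Pool.Agent.Helper42.Th

namespace Pot

section

variable {E : Type} {Γ : CMap E} {δ : E} {h k : ℤ} (P : Pot Γ δ h k)

/-- A set of faces which is left only upwards through the walls. -/
private lemma row_aux [Finite E] (hh : 0 ≤ h) {j : ℤ} {S : E → Prop}
    (hS : ∀ d, S (Γ.flip (Γ.rot d)) ↔ S d)
    (hwall : ∀ d, d ≠ δ → d ≠ Γ.flip δ → P.A d = P.A (Γ.flip d) → P.Y d ≤ j →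
      j < P.Y (Γ.flip d) → S d → S (Γ.flip d))
    {d e : E} (hd : P.Y d ≤ j) (hd' : j < P.Y (Γ.flip d)) (hne : P.A d ≠ P.A (Γ.flip d))
    (ha : P.A e = P.A (Γ.flip d))
    (hun : ∀ f, f ≠ δ → f ≠ Γ.flip δ → P.Y f ≤ j → j < P.Y (Γ.flip f) →
      P.A f < P.A (Γ.flip f) → P.A f = P.A e → f = e)
    (hδ : P.A δ = P.A e → δ = e) (h0 : S (Γ.flip d)) : S e := by
  classical
  cases nonempty_fintype E
  by_contra hn
  have key : ∀ f, P.Y f ≤ j → j < P.Y (Γ.flip f) → P.A f = P.A e → S f →
      P.A (Γ.flip f) = P.A e ∧ S (Γ.flip f) := by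
    intro f f1 f2 f3 f4
    have n1 : f ≠ Γ.flip δ := by
      rintro rfl
      rw [Γ.flip_flip] at f2
      have := P.Y_u
      have := P.Y_v
      omega
    have n2 : f ≠ δ := by
      rintro rfl
      exact hn (hδ f3 ▸ f4)
    rcases lt_trichotomy (P.A f) (P.A (Γ.flip f)) with h1 | h1 | h1
    · exact absurd (hun f n2 n1 f1 f2 h1 f3 ▸ f4) hn
    · exact ⟨by omega, hwall f n2 n1 h1 f1 f2 f4⟩
    · exfalso
      obtain ⟨n3, n4⟩ := ne_flip (Γ := Γ) f n2 n1
      have := P.edge _ n3 n4 (by rw [Γ.flip_flip]; exact h1)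
      rw [Γ.flip_flip] at this
      omega
  have h1 := stokes Γ (fun d => ind j (P.Y d)) (fun d => if P.A d = P.A e ∧ S d then 1 else 0)
    (fun d => by simp only [P.Y_rot]) (fun d => by simp only [P.A_rot, hS])
  have h2 : 0 < ∑ f, (ind j (P.Y (Γ.flip f)) - ind j (P.Y f)) *
      ((if P.A (Γ.flip f) = P.A e ∧ S (Γ.flip f) then (1 : ℤ) else 0) -
        if P.A f = P.A e ∧ S f then 1 else 0) := by
    apply Finset.sum_pos'
    · intro f _
      have k1 : ¬ j < P.Y f → j < P.Y (Γ.flip f) → P.A f = P.A e ∧ S f →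
          P.A (Γ.flip f) = P.A e ∧ S (Γ.flip f) := fun c1 c2 c3 =>
        key f (not_lt.mp c1) c2 c3.1 c3.2
      have k2 : ¬ j < P.Y (Γ.flip f) → j < P.Y f → P.A (Γ.flip f) = P.A e ∧ S (Γ.flip f) →
          P.A f = P.A e ∧ S f := fun c1 c2 c3 => by
        have := key (Γ.flip f) (not_lt.mp c1) (by rwa [Γ.flip_flip]) c3.1 c3.2
        rwa [Γ.flip_flip] at this
      unfold ind
      by_cases c1 : j < P.Y f <;> by_cases c2 : j < P.Y (Γ.flip f)
      · rw [if_pos c1, if_pos c2, sub_self, zero_mul]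
      · rw [if_pos c1, if_neg c2]
        by_cases c3 : P.A (Γ.flip f) = P.A e ∧ S (Γ.flip f)
        · rw [if_pos c3, if_pos (k2 c2 c1 c3)]
          norm_num
        · rw [if_neg c3]
          split_ifs <;> norm_num
      · rw [if_neg c1, if_pos c2]
        by_cases c3 : P.A f = P.A e ∧ S f
        · rw [if_pos c3, if_pos (k1 c1 c2 c3)]
          norm_num
        · rw [if_neg c3]
          split_ifs <;> norm_num
      · rw [if_neg c1, if_neg c2, sub_self, zero_mul]
    · refine ⟨d, Finset.mem_univ _, ?_⟩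
      rw [if_pos ⟨ha.symm, h0⟩, if_neg fun hc => hne (hc.1.trans ha)]
      unfold ind
      rw [if_pos hd', if_neg (by omega)]
      norm_num
  exact absurd h1 h2.ne'

variable [Finite E] {j : ℤ} {S : E → Prop}

/-- The faces between two consecutive tiles of a row. -/
theorem row (hh : 0 ≤ h) (hk : 0 < k) (hS : ∀ d, S (Γ.flip (Γ.rot d)) ↔ S d)
    (hwall : ∀ d, d ≠ δ → d ≠ Γ.flip δ → P.A d = P.A (Γ.flip d) → P.Y d ≤ j →
      j < P.Y (Γ.flip d) → S d → S (Γ.flip d))
    {d e : E} (d1 : P.Y d ≤ j) (d2 : j < P.Y (Γ.flip d)) (d3 : P.A d < P.A (Γ.flip d))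
    (e0 : e ≠ δ) (e0' : e ≠ Γ.flip δ)
    (e1 : P.Y e ≤ j) (e2 : j < P.Y (Γ.flip e)) (e3 : P.A e < P.A (Γ.flip e))
    (ha : P.A e = P.A (Γ.flip d)) (h0 : S (Γ.flip d)) : S e := by
  have ce : P.Cov e (P.A e) j := ⟨e0, e0', le_rfl, e3, e1, e2⟩
  refine P.row_aux hh hS hwall d1 d2 d3.ne ha (fun f f1 f2 f3 f4 f5 f6 => ?_) (fun h1 => ?_) h0
  · have cf : P.Cov f (P.A e) j := ⟨f1, f2, by omega, by omega, f3, f4⟩
    exact cf.unique (fun hh => Γ.flip_ne δ hh.symm) hh hk.le ce
  · exfalso
    have := (ce.mem (fun hh => Γ.flip_ne δ hh.symm) hh hk.le)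
    have := P.A_R
    omega

/-- The faces between the face of `flip δ` and the first tile of a row. -/
theorem row_left (hk : 0 < k) (hS : ∀ d, S (Γ.flip (Γ.rot d)) ↔ S d)
    (hj : 0 ≤ j) (hj' : j < h)
    (hwall : ∀ d, d ≠ δ → d ≠ Γ.flip δ → P.A d = P.A (Γ.flip d) → P.Y d ≤ j →
      j < P.Y (Γ.flip d) → S d → S (Γ.flip d))
    {e : E} (e0 : e ≠ δ) (e0' : e ≠ Γ.flip δ)
    (e1 : P.Y e ≤ j) (e2 : j < P.Y (Γ.flip e)) (e3 : P.A e < P.A (Γ.flip e))
    (ha : P.A e = 0) (h0 : S (Γ.flip δ)) : S e := by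
  have hh : 0 ≤ h := by omega
  have ce : P.Cov e (P.A e) j := ⟨e0, e0', le_rfl, e3, e1, e2⟩
  refine P.row_aux hh hS hwall (d := δ) ?_ ?_ ?_ ?_ (fun f f1 f2 f3 f4 f5 f6 => ?_)
    (fun h1 => ?_) h0
  · rw [P.Y_u]
    exact hj
  · rw [P.Y_v]
    exact hj'
  · rw [P.A_R, P.A_L]
    omega
  · rw [P.A_L]
    exact ha
  · have cf : P.Cov f (P.A e) j := ⟨f1, f2, by omega, by omega, f3, f4⟩
    exact cf.unique (fun hh => Γ.flip_ne δ hh.symm) hh hk.le ce
  · exfalso
    have := P.A_R
    omega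

/-- The faces between the last tile of a row and the face of `δ`. -/
theorem row_right (hh : 0 ≤ h) (hk : 0 < k) (hS : ∀ d, S (Γ.flip (Γ.rot d)) ↔ S d)
    (hwall : ∀ d, d ≠ δ → d ≠ Γ.flip δ → P.A d = P.A (Γ.flip d) → P.Y d ≤ j →
      j < P.Y (Γ.flip d) → S d → S (Γ.flip d))
    {d : E} (d1 : P.Y d ≤ j) (d2 : j < P.Y (Γ.flip d)) (d3 : P.A d < P.A (Γ.flip d))
    (ha : P.A (Γ.flip d) = k) (h0 : S (Γ.flip d)) : S δ := by
  refine P.row_aux hh hS hwall d1 d2 d3.ne (P.A_R.trans ha.symm) (fun f f1 f2 f3 f4 f5 f6 => ?_)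
    (fun _ => rfl) h0
  exfalso
  have cf : P.Cov f (P.A f) j := ⟨f1, f2, le_rfl, f5, f3, f4⟩
  have := cf.mem (fun hh => Γ.flip_ne δ hh.symm) hh hk.le
  have := P.A_R
  omega

/-- If the tiles of a row are glued without a jump, then no wall of the row has a jump. -/
theorem wall_eq (hk : 0 < k) (hj : 0 ≤ j) (hj' : j < h) {X : Type*} [LinearOrder X] {w : E → X}
    (hw : ∀ d, w (Γ.flip (Γ.rot d)) = w d)
    (hwall : ∀ d, P.A d = P.A (Γ.flip d) → P.Y d ≤ j → j < P.Y (Γ.flip d) → w d ≤ w (Γ.flip d))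
    (hL : ∀ e, e ≠ δ → e ≠ Γ.flip δ → P.Y e ≤ j → j < P.Y (Γ.flip e) →
      P.A e < P.A (Γ.flip e) → P.A e = 0 → w e = w (Γ.flip δ))
    (hR : ∀ e, e ≠ δ → e ≠ Γ.flip δ → P.Y e ≤ j → j < P.Y (Γ.flip e) →
      P.A e < P.A (Γ.flip e) → P.A (Γ.flip e) = k → w (Γ.flip e) = w δ)
    (hrow : ∀ e e', e ≠ δ → e ≠ Γ.flip δ → P.Y e ≤ j → j < P.Y (Γ.flip e) →
      P.A e < P.A (Γ.flip e) → e' ≠ δ → e' ≠ Γ.flip δ → P.Y e' ≤ j → j < P.Y (Γ.flip e') →
      P.A e' < P.A (Γ.flip e') → P.A (Γ.flip e) = P.A e' → w (Γ.flip e) = w e')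
    {d : E} (d1 : P.A d = P.A (Γ.flip d)) (d2 : P.Y d ≤ j) (d3 : j < P.Y (Γ.flip d)) :
    w d = w (Γ.flip d) := by
  classical
  cases nonempty_fintype E
  refine (hwall d d1 d2 d3).eq_of_not_lt fun hlt => ?_
  set a := P.A d with ha
  set χ : E → ℤ := fun f => if P.A f = a ∧ w (Γ.flip d) ≤ w f then 1 else 0 with hχ
  have χ0 : ∀ f, 0 ≤ χ f := fun f => by
    simp only [hχ]
    split_ifs <;> norm_num
  have χ1 : ∀ f, χ f ≤ 1 := fun f => by
    simp only [hχ]
    split_ifs <;> norm_num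
  have χa : ∀ f, P.A f ≠ a → χ f = 0 := fun f hf => if_neg fun hc => hf hc.1
  have hs := stokes Γ (fun d => ind j (P.Y d)) χ (fun d => by simp only [P.Y_rot])
    (fun d => by simp only [hχ, P.A_rot, hw])
  -- the sum over the darts which cross the row upwards
  set U : Finset E := Finset.univ.filter fun f => P.Y f ≤ j ∧ j < P.Y (Γ.flip f) with hU
  have hsum : ∑ f ∈ U, (χ (Γ.flip f) - χ f) = 0 := by
    have t1 : ∀ f, (ind j (P.Y (Γ.flip f)) - ind j (P.Y f)) * (χ (Γ.flip f) - χ f) =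
        (if P.Y f ≤ j ∧ j < P.Y (Γ.flip f) then χ (Γ.flip f) - χ f else 0) +
        (if P.Y (Γ.flip f) ≤ j ∧ j < P.Y f then χ f - χ (Γ.flip f) else 0) := by
      intro f
      unfold ind
      by_cases c1 : j < P.Y f <;> by_cases c2 : j < P.Y (Γ.flip f)
      · rw [if_pos c1, if_pos c2, if_neg fun hc => absurd hc.1 (not_le.mpr c1),
          if_neg fun hc => absurd hc.1 (not_le.mpr c2)]
        ring
      · rw [if_pos c1, if_neg c2, if_neg fun hc => absurd hc.1 (not_le.mpr c1),
          if_pos ⟨not_lt.mp c2, c1⟩]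
        ring
      · rw [if_neg c1, if_pos c2, if_pos ⟨not_lt.mp c1, c2⟩,
          if_neg fun hc => absurd hc.1 (not_le.mpr c2)]
        ring
      · rw [if_neg c1, if_neg c2, if_neg fun hc => c2 hc.2, if_neg fun hc => c1 hc.2]
        ring
    rw [Finset.sum_congr rfl fun f _ => t1 f, Finset.sum_add_distrib] at hs
    have t2 : ∑ f, (if P.Y (Γ.flip f) ≤ j ∧ j < P.Y f then χ f - χ (Γ.flip f) else 0) =
        ∑ f, if P.Y f ≤ j ∧ j < P.Y (Γ.flip f) then χ (Γ.flip f) - χ f else 0 := by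
      rw [← Equiv.sum_comp Γ.flip fun f =>
        if P.Y f ≤ j ∧ j < P.Y (Γ.flip f) then χ (Γ.flip f) - χ f else 0]
      exact Finset.sum_congr rfl fun f _ => by rw [Γ.flip_flip]
    rw [t2, ← Finset.sum_filter] at hs
    change ∑ f ∈ U, (χ (Γ.flip f) - χ f) + ∑ f ∈ U, (χ (Γ.flip f) - χ f) = 0 at hs
    omega
  have hdU : d ∈ U := Finset.mem_filter.mpr ⟨Finset.mem_univ _, d2, d3⟩
  have hχd : χ (Γ.flip d) - χ d = 1 := by
    simp only [hχ]
    rw [if_pos ⟨d1.symm, le_rfl⟩, if_neg fun hc => absurd hc.2 (not_le.mpr hlt)]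
    norm_num
  have hup : ∀ f ∈ U, P.Y f ≤ j ∧ j < P.Y (Γ.flip f) := fun f hf =>
    (Finset.mem_filter.mp hf).2
  have hwl : ∀ f ∈ U, P.A f = P.A (Γ.flip f) → 0 ≤ χ (Γ.flip f) - χ f := by
    intro f hf h1
    obtain ⟨h2, h3⟩ := hup f hf
    by_cases h4 : P.A f = a ∧ w (Γ.flip d) ≤ w f
    · have h5 : χ (Γ.flip f) = 1 := if_pos ⟨h1.symm.trans h4.1, h4.2.trans (hwall f h1 h2 h3)⟩
      have := χ1 f
      omega
    · have h5 : χ f = 0 := if_neg h4
      have := χ0 (Γ.flip f)
      omega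
  have hnf : ∀ f ∈ U, f ≠ Γ.flip δ := by
    rintro f hf rfl
    obtain ⟨h2, h3⟩ := hup _ hf
    rw [Γ.flip_flip] at h3
    have := P.Y_u
    have := P.Y_v
    omega
  have hpos : ∀ f ∈ U, f ≠ δ → P.A f ≤ P.A (Γ.flip f) := by
    intro f hf h1
    obtain ⟨h2, h3⟩ := hup f hf
    by_contra hn
    obtain ⟨n3, n4⟩ := ne_flip (Γ := Γ) f h1 (hnf f hf)
    have := P.edge _ n3 n4 (by rw [Γ.flip_flip]; omega)
    rw [Γ.flip_flip] at this
    omega
  have hne : δ ≠ Γ.flip δ := fun hh => Γ.flip_ne δ hh.symm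
  have hh : 0 ≤ h := by omega
  have hcov : ∀ f ∈ U, f ≠ δ → P.A f < P.A (Γ.flip f) → ∀ i, P.A f ≤ i → i < P.A (Γ.flip f) →
      P.Cov f i j := fun f hf h1 _ i h3 h4 =>
    ⟨h1, hnf f hf, h3, h4, (hup f hf).1, (hup f hf).2⟩
  by_cases hex : ∃ e' ∈ U, P.A e' ≠ P.A (Γ.flip e') ∧ P.A e' = a ∧ w (Γ.flip d) ≤ w e'
  · obtain ⟨e', e1, e2, e3, e4⟩ := hex
    -- the tile on the other side
    obtain ⟨e, he, h1, h2, h3⟩ : ∃ e ∈ U, P.A (Γ.flip e) = a ∧ P.A e ≠ a ∧
        w (Γ.flip e) = w e' := by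
      have mk : 0 < a → a ≤ k → ∃ e, P.Cov e (a - 1) j := fun g1 g2 => by
        obtain ⟨e, he, -⟩ := P.exists_unique hne (i := a - 1) (j := j) (by omega) (by omega) hj hj'
        exact ⟨e, he⟩
      by_cases e5 : e' = δ
      · subst e5
        rw [P.A_R] at e3
        obtain ⟨e, he⟩ := mk (by omega) (by omega)
        have g1 := he.a1
        have g2 := he.a2
        have g3 := he.y1
        have g4 := he.y2
        have g5 : P.A (Γ.flip e) = k := by
          have : P.Cov e (P.A (Γ.flip e) - 1) j := ⟨he.ne, he.ne', by omega, by omega, g3, g4⟩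
          have := this.mem hne hh hk.le
          omega
        exact ⟨e, Finset.mem_filter.mpr ⟨Finset.mem_univ _, g3, g4⟩, by omega, by omega,
          hR e he.ne he.ne' g3 g4 (by omega) g5⟩
      · have e6 := hpos e' e1 e5
        have e7 : P.A e' < P.A (Γ.flip e') := lt_of_le_of_ne e6 e2
        have ce := hcov e' e1 e5 e7 a (by omega) (by omega)
        have m1 := ce.mem hne hh hk.le
        obtain ⟨u1, u2⟩ := hup e' e1
        rcases eq_or_lt_of_le m1.1.1 with m2 | m2
        · refine ⟨δ, Finset.mem_filter.mpr ⟨Finset.mem_univ _, ?_, ?_⟩, ?_, ?_, ?_⟩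
          · rw [P.Y_u]
            exact hj
          · rw [P.Y_v]
            exact hj'
          · rw [P.A_L]
            exact m2
          · rw [P.A_R]
            omega
          · exact (hL e' e5 (hnf e' e1) u1 u2 e7 (by omega)).symm
        · obtain ⟨e, he⟩ := mk m2 (by omega)
          have g1 := he.a1
          have g2 := he.a2
          have g3 := he.y1
          have g4 := he.y2
          have g5 : P.A (Γ.flip e) = a := by
            by_contra hn
            have c1 : P.Cov e a j := ⟨he.ne, he.ne', by omega, by omega, g3, g4⟩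
            have := c1.unique hne hh hk.le ce
            subst this
            omega
          exact ⟨e, Finset.mem_filter.mpr ⟨Finset.mem_univ _, g3, g4⟩, by omega, by omega,
            hrow e e' he.ne he.ne' g3 g4 (by omega) e5 (hnf e' e1) u1 u2 e7 (by omega)⟩
    have k1 : ∀ f ∈ U, (if f = d then 1 else 0) + (if f = e then 1 else 0) -
        (if f = e' then (1 : ℤ) else 0) ≤ χ (Γ.flip f) - χ f := by
      intro f hf
      have hde : d ≠ e := by
        rintro rfl
        exact h2 rfl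
      have hde' : d ≠ e' := by
        rintro rfl
        exact e2 d1
      have hee : e ≠ e' := by
        rintro rfl
        exact h2 e3
      by_cases f1 : f = d
      · subst f1
        rw [if_pos rfl, if_neg hde, if_neg hde', hχd]
        norm_num
      · rw [if_neg f1]
        by_cases f2 : f = e
        · subst f2
          have : χ (Γ.flip f) = 1 := if_pos ⟨h1, by rw [h3]; exact e4⟩
          rw [if_pos rfl, if_neg hee, this, χa f h2]
          norm_num
        · rw [if_neg f2]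
          by_cases f3 : f = e'
          · subst f3
            rw [if_pos rfl]
            have := χ0 (Γ.flip f)
            have := χ1 f
            omega
          · rw [if_neg f3]
            rcases eq_or_ne (P.A f) (P.A (Γ.flip f)) with f4 | f4
            · have := hwl f hf f4
              omega
            · have f5 : χ f = 0 := by
                by_cases f6 : P.A f = a
                · exfalso
                  apply f3
                  by_cases f7 : f = δ
                  · by_cases f8 : e' = δ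
                    · rw [f7, f8]
                    · exfalso
                      have e7 : P.A e' < P.A (Γ.flip e') := lt_of_le_of_ne (hpos e' e1 f8) e2
                      have := (hcov e' e1 f8 e7 a (by omega) (by omega)).mem hne hh hk.le
                      rw [f7, P.A_R] at f6
                      omega
                  · have f9 : P.A f < P.A (Γ.flip f) := lt_of_le_of_ne (hpos f hf f7) f4
                    have cf := hcov f hf f7 f9 a (by omega) (by omega)
                    by_cases f8 : e' = δ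
                    · exfalso
                      have := cf.mem hne hh hk.le
                      rw [f8, P.A_R] at e3
                      omega
                    · have e7 : P.A e' < P.A (Γ.flip e') := lt_of_le_of_ne (hpos e' e1 f8) e2
                      exact cf.unique hne hh hk.le (hcov e' e1 f8 e7 a (by omega) (by omega))
                · exact χa f f6
              have := χ0 (Γ.flip f)
              omega
    have k2 := Finset.sum_le_sum k1
    rw [hsum, Finset.sum_sub_distrib, Finset.sum_add_distrib, Finset.sum_ite_eq',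
      Finset.sum_ite_eq', Finset.sum_ite_eq', if_pos hdU, if_pos he, if_pos e1] at k2
    omega
  · push Not at hex
    have k1 : ∀ f ∈ U, (if f = d then (1 : ℤ) else 0) ≤ χ (Γ.flip f) - χ f := by
      intro f hf
      by_cases f1 : f = d
      · subst f1
        rw [if_pos rfl, hχd]
      · rw [if_neg f1]
        rcases eq_or_ne (P.A f) (P.A (Γ.flip f)) with f4 | f4
        · exact hwl f hf f4
        · have f5 : χ f = 0 := if_neg fun hc => absurd hc.2 (not_le.mpr (hex f hf f4 hc.1))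
          have := χ0 (Γ.flip f)
          omega
    have k2 := Finset.sum_le_sum k1
    rw [hsum, Finset.sum_ite_eq', if_pos hdU] at k2
    omega

end

end Pot

end Pool.Agent.Helper74.TW
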