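import Mathlib
import Pool.Agent.Helper74.TW.Row
import Pool.Agent.Helper89.TL.Defs
import Pool.Agent.Helper89.TL.Rect

/-!
From a dissection to a tiling, the sides of which carry automorphisms of a linear order.
-/

set_option autoImplicit false

namespace Pool.Agent.Helper74.TW

open Pool.Agent.Helper42.Th Pool.Agent.Helper89.TL

variable {E : Type} {Γ : CMap E} {δ : E} {h k : ℕ} {Y A : E → ℤ} {T : Finset E}

/-- The potentials of a dissection. -/
def ofDis (hT : Dissection Γ δ h k Y A T) : Pot Γ δ h k where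
  Y := Y
  A := A
  Y_rot := hT.Y_rot
  A_rot := hT.A_rot
  Y_u := hT.Y_lo
  Y_v := hT.Y_hi
  A_R := hT.A_hi
  A_L := hT.A_lo
  edge d _ h2 h3 := hT.tile d ((hT.mem d).mpr ⟨h2, h3⟩)

lemma mem_ne (hT : Dissection Γ δ h k Y A T) {d : E} (hd : d ∈ T) :
    d ≠ δ ∧ d ≠ Γ.flip δ ∧ A d < A (Γ.flip d) := by
  obtain ⟨h1, h2⟩ := (hT.mem d).mp hd
  refine ⟨?_, h1, h2⟩
  rintro rfl
  rw [hT.A_hi, hT.A_lo] at h2
  omega

/-- The rectangle of a dart. -/
def toT (hT : Dissection Γ δ h k Y A T) (d : {d // d ∈ T}) : (ofDis hT).T :=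
  ⟨d.1, mem_ne hT d.2⟩

lemma const_rot {α : Type*} {f : E → α} (hf : ∀ d, f (Γ.rot d) = f d) {d e : E}
    (hs : Γ.rot.SameCycle d e) : f e = f d := by
  obtain ⟨n, rfl⟩ := hs
  have h1 : ∀ (n : ℕ) (x : E), f ((Γ.rot ^ n) x) = f x := by
    intro n
    induction n with
    | zero => intro x; simp
    | succ n ih => intro x; rw [pow_succ, Equiv.Perm.mul_apply, ih, hf]
  obtain ⟨m, hm⟩ := Int.eq_nat_or_neg n
  rcases hm with rfl | rfl
  · rw [zpow_natCast, h1]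
  · rw [zpow_neg, zpow_natCast]
    have := h1 m ((Γ.rot ^ m)⁻¹ d)
    rw [← this, ← Equiv.Perm.mul_apply, mul_inv_cancel, Equiv.Perm.one_apply]

/-- **Block W** -/
theorem exists_rtiling [Finite E] {X : Type*} [LinearOrder X]
    (hT : Dissection Γ δ h k Y A T) (V W : E → X ≃o X) (V_rot : ∀ d, V (Γ.rot d) = V d)
    (W_rot : ∀ d, W (Γ.flip (Γ.rot d)) = W d)
    (τ M : X ≃o X) (V_u : V δ = 1) (V_v : V (Γ.flip δ) = τ) (W_L : W (Γ.flip δ) = 1)
    (W_R : W δ = M)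
    (comm : ∀ d, Commute (V (Γ.flip d) * (V d)⁻¹) (W (Γ.flip d) * (W d)⁻¹))
    (tile : ∀ d ∈ T, ∀ z, ((V (Γ.flip d) * (V d)⁻¹) ^ (A (Γ.flip d) - A d)) z ≤
      ((W (Γ.flip d) * (W d)⁻¹) ^ (Y (Γ.flip d) - Y d)) z)
    (wall : ∀ d, A d = A (Γ.flip d) → Y d < Y (Γ.flip d) → ∀ z, W d z ≤ W (Γ.flip d) z) :
    ∃ U : RTiling X h k τ M {d // d ∈ T},
      (∑ e, (U.wd e + U.ht e - Nat.gcd (U.wd e) (U.ht e)) : ℤ) = total Γ Y A T ∧
      ((∀ e, U.al e = 0 → ∀ z, U.lt e z = z) →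
        (∀ e, U.al e + U.wd e = k → ∀ z, U.rt e z = M z) →
        (∀ e e' j, In (U.yt e) (U.ht e) j → In (U.yt e') (U.ht e') j →
          U.al e + U.wd e = U.al e' → ∀ z, U.rt e z = U.lt e' z) →
        ∀ d, A d = A (Γ.flip d) → ∀ j : ℕ, j < h → Y d ≤ j → j < Y (Γ.flip d) →
          ∀ z, W d z = W (Γ.flip d) z) := by
  classical
  set P := ofDis hT with hP
  have hwd : ∀ d : {d // d ∈ T}, P.al (toT hT d) + (A (Γ.flip d.1) - A d.1).toNat =
      P.ar (toT hT d) := by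
    intro d
    have h1 : (P.al (toT hT d) : ℤ) = A d.1 := P.al_eq (toT hT d)
    have h2 : (P.ar (toT hT d) : ℤ) = A (Γ.flip d.1) := P.ar_eq (toT hT d)
    have h3 := (mem_ne hT d.2).2.2
    omega
  have hht : ∀ d : {d // d ∈ T}, P.yt (toT hT d) + (Y (Γ.flip d.1) - Y d.1).toNat =
      P.yh (toT hT d) := by
    intro d
    have h1 : (P.yt (toT hT d) : ℤ) = Y d.1 := P.yt_eq (toT hT d)
    have h2 : (P.yh (toT hT d) : ℤ) = Y (Γ.flip d.1) := P.yh_eq (toT hT d)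
    have h3 := hT.tile d.1 d.2
    omega
  have hw0 : ∀ {j : ℤ} {S : E → Prop} {z : X} (c : X), (∀ d, S d ↔ c ≤ W d z) →
      (∀ d, d ≠ δ → d ≠ Γ.flip δ → A d = A (Γ.flip d) → Y d ≤ j →
      j < Y (Γ.flip d) → S d → S (Γ.flip d)) := by
    intro j S z c hS d _ _ h1 h2 h3 h4
    rw [hS] at h4 ⊢
    exact h4.trans (wall d h1 (by omega) z)
  have hh : (0 : ℤ) ≤ h := by positivity
  have hk : (0 : ℤ) < k := by exact_mod_cast hT.k_pos
  have hleft : ∀ (d : {d // d ∈ T}), P.al (toT hT d) = 0 → ∀ z, z ≤ W d.1 z := by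
    intro d h1 z
    have h2 : (P.al (toT hT d) : ℤ) = A d.1 := P.al_eq (toT hT d)
    have h3 := P.bounds (toT hT d)
    obtain ⟨n1, n2, n3⟩ := mem_ne hT d.2
    have h4 := hT.tile d.1 d.2
    refine P.row_left (j := Y d.1) (S := fun d => z ≤ W d z) hk (fun d => by rw [W_rot]) h3.2.2.2.1
      (lt_of_lt_of_le h3.2.2.2.2.1 h3.2.2.2.2.2) (hw0 z fun _ => Iff.rfl) n1 n2 le_rfl h4 n3 ?_ ?_
    · change A d.1 = 0
      omega
    · rw [W_L]
      exact le_rfl
  have hright : ∀ (d : {d // d ∈ T}), P.ar (toT hT d) = k → ∀ z, W (Γ.flip d.1) z ≤ M z := by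
    intro d h1 z
    have h2 : (P.ar (toT hT d) : ℤ) = A (Γ.flip d.1) := P.ar_eq (toT hT d)
    obtain ⟨n1, n2, n3⟩ := mem_ne hT d.2
    have h4 := hT.tile d.1 d.2
    have := P.row_right (j := Y d.1) (S := fun e => W (Γ.flip d.1) z ≤ W e z) hh hk
      (fun d => by rw [W_rot]) (hw0 _ fun _ => Iff.rfl) le_rfl h4 n3
      (by change A (Γ.flip d.1) = k; omega) le_rfl
    rwa [W_R] at this
  have hrow : ∀ (d e : {d // d ∈ T}) (j : ℕ), P.yt (toT hT d) ≤ j → j < P.yh (toT hT d) →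
      P.yt (toT hT e) ≤ j → j < P.yh (toT hT e) → P.ar (toT hT d) = P.al (toT hT e) →
      ∀ z, W (Γ.flip d.1) z ≤ W e.1 z := by
    intro d e j d1 d2 e1 e2 hde z
    have a1 : (P.yt (toT hT d) : ℤ) = Y d.1 := P.yt_eq (toT hT d)
    have a2 : (P.yh (toT hT d) : ℤ) = Y (Γ.flip d.1) := P.yh_eq (toT hT d)
    have a3 : (P.ar (toT hT d) : ℤ) = A (Γ.flip d.1) := P.ar_eq (toT hT d)
    have b1 : (P.yt (toT hT e) : ℤ) = Y e.1 := P.yt_eq (toT hT e)
    have b2 : (P.yh (toT hT e) : ℤ) = Y (Γ.flip e.1) := P.yh_eq (toT hT e)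
    have b3 : (P.al (toT hT e) : ℤ) = A e.1 := P.al_eq (toT hT e)
    obtain ⟨n1, n2, n3⟩ := mem_ne hT d.2
    obtain ⟨m1, m2, m3⟩ := mem_ne hT e.2
    refine P.row (j := j) (S := fun e => W (Γ.flip d.1) z ≤ W e z) hh hk
      (fun d => by rw [W_rot]) (hw0 _ fun _ => Iff.rfl) (d := d.1) (e := e.1) ?_ ?_ n3 m1 m2 ?_ ?_
      m3 ?_ le_rfl
    · change Y d.1 ≤ j
      omega
    · change (j : ℤ) < Y (Γ.flip d.1)
      omega
    · change Y e.1 ≤ j
      omega
    · change (j : ℤ) < Y (Γ.flip e.1)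
      omega
    · change A e.1 = A (Γ.flip d.1)
      omega
  refine ⟨{
    al := fun d => P.al (toT hT d)
    yt := fun d => P.yt (toT hT d)
    wd := fun d => (A (Γ.flip d.1) - A d.1).toNat
    ht := fun d => (Y (Γ.flip d.1) - Y d.1).toNat
    wd_pos := fun d => by
      have := (mem_ne hT d.2).2.2
      omega
    ht_pos := fun d => by
      have := hT.tile d.1 d.2
      omega
    colb := fun d => by
      rw [hwd]
      exact P.ar_le _
    rowb := fun d => by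
      rw [hht]
      exact P.yh_le _
    cover := fun i hi j hj => by
      obtain ⟨⟨d, hd⟩, ⟨⟨h1, h2⟩, h3, h4⟩, -⟩ := P.part i hi j hj
      have hd' : d ∈ T := (hT.mem d).mpr ⟨hd.2.1, hd.2.2⟩
      refine ⟨⟨d, hd'⟩, ⟨h1, ?_⟩, h3, ?_⟩
      · rw [hwd]
        exact h2
      · rw [hht]
        exact h4
    disj := fun e e' i j h1 h2 h3 h4 => by
      have g1 := h1.2
      have g2 := h2.2
      have g3 := h3.2
      have g4 := h4.2
      rw [hwd] at g1 g3
      rw [hht] at g2 g4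
      have hi : i < k := g1.trans_le (P.ar_le _)
      have hj : j < h := g2.trans_le (P.yh_le _)
      have h5 := (P.part i hi j hj).unique (y₁ := toT hT e) (y₂ := toT hT e')
        ⟨⟨h1.1, g1⟩, h2.1, g2⟩ ⟨⟨h3.1, g3⟩, h4.1, g4⟩
      exact Subtype.ext (congrArg (fun x : (ofDis hT).T => x.1) h5)
    lo := fun d => V d.1
    up := fun d => V (Γ.flip d.1)
    lt := fun d => W d.1
    rt := fun d => W (Γ.flip d.1)
    bot := fun d hd => by
      have h1 : V δ = V d.1 := const_rot V_rot (P.bot (toT hT d) hd)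
      rw [← h1, V_u]
    top := fun d hd => by
      rw [hht] at hd
      have h1 : V (Γ.flip δ) = V (Γ.flip d.1) := const_rot V_rot (P.top (toT hT d) hd)
      rw [← h1, V_v]
    vert := fun d e i h1 h2 h3 => by
      have g1 := h1.2
      have g2 := h2.2
      rw [hwd] at g1 g2
      rw [hht] at h3
      exact (const_rot V_rot (P.col (toT hT d) (toT hT e) i h1.1 g1 h2.1 g2 h3.symm)).symm
    left := hleft
    right := fun d hd => hright d (by rw [← hwd]; exact hd)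
    horz := fun d e j h1 h2 h3 => by
      have g1 := h1.2
      have g2 := h2.2
      rw [hht] at g1 g2
      rw [hwd] at h3
      exact hrow d e j h1.1 g1 h2.1 g2 h3
    comm := fun d => comm d.1
    slope := fun d z => by
      have h1 := tile d.1 d.2 z
      obtain ⟨n, hn⟩ := Int.eq_ofNat_of_zero_le (a := A (Γ.flip d.1) - A d.1) (by
        have := (mem_ne hT d.2).2.2
        omega)
      obtain ⟨m, hm⟩ := Int.eq_ofNat_of_zero_le (a := Y (Γ.flip d.1) - Y d.1) (by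
        have := hT.tile d.1 d.2
        omega)
      rw [hn, hm, zpow_natCast, zpow_natCast] at h1
      rw [hn, hm, Int.toNat_natCast, Int.toNat_natCast]
      exact h1 }, ?_, ?_⟩
  · simp only
    unfold total
    rw [← Finset.sum_coe_sort T]
    refine Finset.sum_congr rfl fun d _ => ?_
    have h1 := (mem_ne hT d.2).2.2
    have h2 := hT.tile d.1 d.2
    obtain ⟨n, hn⟩ := Int.eq_ofNat_of_zero_le (a := A (Γ.flip d.1) - A d.1) (by omega)
    obtain ⟨m, hm⟩ := Int.eq_ofNat_of_zero_le (a := Y (Γ.flip d.1) - Y d.1) (by omega)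
    unfold size
    rw [hn, hm, Int.toNat_natCast, Int.toNat_natCast, Int.gcd_natCast_natCast]
  · intro hL hR hr d d1 j hj d2 d3 z
    refine P.wall_eq (j := j) (w := fun d => W d z) hk (by omega) (by exact_mod_cast hj)
      (fun d => by simp only [W_rot]) (fun e e1 e2 e3 => wall e e1 ?_ z) ?_ ?_ ?_ d1 d2 d3
    · change Y e ≤ j at e2
      change (j : ℤ) < Y (Γ.flip e) at e3
      omega
    · intro e e0 e0' e1 e2 e3 e4
      have heT : e ∈ T := (hT.mem e).mpr ⟨e0', e3⟩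
      have h1 : (P.al (toT hT ⟨e, heT⟩) : ℤ) = A e := P.al_eq (toT hT ⟨e, heT⟩)
      change A e = 0 at e4
      have := hL ⟨e, heT⟩ (by simp only; omega) z
      simp only at this ⊢
      rw [this, W_L]
      rfl
    · intro e e0 e0' e1 e2 e3 e4
      have heT : e ∈ T := (hT.mem e).mpr ⟨e0', e3⟩
      have h1 := hwd ⟨e, heT⟩
      have h2 : (P.ar (toT hT ⟨e, heT⟩) : ℤ) = A (Γ.flip e) := P.ar_eq (toT hT ⟨e, heT⟩)
      change A (Γ.flip e) = k at e4
      have := hR ⟨e, heT⟩ (by simp only; rw [h1]; omega) z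
      simp only at this ⊢
      rw [this, W_R]
    · intro e e' e0 e0' e1 e2 e3 f0 f0' f1 f2 f3 hef
      have heT : e ∈ T := (hT.mem e).mpr ⟨e0', e3⟩
      have hfT : e' ∈ T := (hT.mem e').mpr ⟨f0', f3⟩
      have h1 := hwd ⟨e, heT⟩
      have h2 : (P.ar (toT hT ⟨e, heT⟩) : ℤ) = A (Γ.flip e) := P.ar_eq (toT hT ⟨e, heT⟩)
      have h3 : (P.al (toT hT ⟨e', hfT⟩) : ℤ) = A e' := P.al_eq (toT hT ⟨e', hfT⟩)
      have h4 := hht ⟨e, heT⟩
      have h5 : (P.yh (toT hT ⟨e, heT⟩) : ℤ) = Y (Γ.flip e) := P.yh_eq (toT hT ⟨e, heT⟩)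
      have h6 := hht ⟨e', hfT⟩
      have h7 : (P.yh (toT hT ⟨e', hfT⟩) : ℤ) = Y (Γ.flip e') := P.yh_eq (toT hT ⟨e', hfT⟩)
      have h8 : (P.yt (toT hT ⟨e, heT⟩) : ℤ) = Y e := P.yt_eq (toT hT ⟨e, heT⟩)
      have h9 : (P.yt (toT hT ⟨e', hfT⟩) : ℤ) = Y e' := P.yt_eq (toT hT ⟨e', hfT⟩)
      change A (Γ.flip e) = A e' at hef
      change Y e ≤ j at e1
      change (j : ℤ) < Y (Γ.flip e) at e2
      change Y e' ≤ j at f1
      change (j : ℤ) < Y (Γ.flip e') at f2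
      have := hr ⟨e, heT⟩ ⟨e', hfT⟩ j ⟨by simp only; omega, by simp only; rw [h4]; omega⟩
        ⟨by simp only; omega, by simp only; rw [h6]; omega⟩ (by simp only; rw [h1]; omega) z
      simpa only using this

end Pool.Agent.Helper74.TW
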